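import Pool.Agent.H.MP_c02c06_co.AG

set_option autoImplicit false

namespace Pool.Agent.Results.MP_c02c06_co.Max

open Pool.Agent.H.MP_c02c06_co

theorem result (r : ℕ) (hr : 5 ≤ r) : (∃! a, AG r a) ∧
    ∀ a, AG r a → maxMult a = mult a (r - 1) ∧ mult a (r - 1) = a r := by
  have h2 : 2 ≤ r := by omega
  refine ⟨⟨g r, ag h2, fun a h => uniq h2 h⟩, fun a h => ?_⟩
  rw [uniq h2 h, (top hr).1, (top hr).2]
  exact ⟨rfl, rfl⟩

end Pool.Agent.Results.MP_c02c06_co.Max
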